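import Pool.Agent.helper80.SG.Spec3
import Pool.Agent.helper61.SV.Z0

/-! bl:S11, `O(1,1)` is special. -/

set_option autoImplicit false
set_option linter.unusedSectionVars false

namespace Pool.Agent.SG

open MvPolynomial Module Pool.Agent.SV

/-- linear form in the `i`-th group of variables -/
noncomputable def S11_lin {n : Fin 2 → ℕ} (i : Fin 2) (u : Fin (n i + 1) → ℂ) :
    MvPolynomial (Var n) ℂ := ∑ j, u j • X ⟨i, j⟩

theorem S11_lin_eval {n : Fin 2 → ℕ} (i : Fin 2) (u : Fin (n i + 1) → ℂ) (x : Var n → ℂ) :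
    eval x (S11_lin i u) = ∑ j, u j * x ⟨i, j⟩ := by
  unfold S11_lin
  rw [map_sum]
  refine Finset.sum_congr rfl fun j _ => ?_
  rw [smul_eval, eval_X]

theorem S11_mon {n d : Fin 2 → ℕ} (hd : ∀ i, d i = 1) (j : Fin (n 0 + 1)) (l : Fin (n 1 + 1)) :
    (X ⟨0, j⟩ * X ⟨1, l⟩ : MvPolynomial (Var n) ℂ) ∈ MultiHom n d := by
  intro m hm i
  have e : (X ⟨0, j⟩ * X ⟨1, l⟩ : MvPolynomial (Var n) ℂ) =
      monomial (Finsupp.single ⟨0, j⟩ 1 + Finsupp.single ⟨1, l⟩ 1) 1 := by
    simp [X, monomial_mul]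
  rw [e, coeff_monomial] at hm
  have hm2 : (Finsupp.single ⟨0, j⟩ 1 + Finsupp.single ⟨1, l⟩ 1 : Var n →₀ ℕ) = m := by
    by_contra h
    exact hm (if_neg h)
  rw [hd i, ← hm2]
  fin_cases i
  · simp [Finsupp.single_apply]
  · simp [Finsupp.single_apply]

theorem S11_mem {n d : Fin 2 → ℕ} (hd : ∀ i, d i = 1) (p : Fin 2 → Var n → ℂ)
    (u : Fin (n 0 + 1) → ℂ) (v : Fin (n 1 + 1) → ℂ)
    (hu : ∀ l, ∑ j, u j * p l ⟨0, j⟩ = 0) (hv : ∀ l, ∑ j, v j * p l ⟨1, j⟩ = 0) :
    S11_lin 0 u * S11_lin 1 v ∈ Sys n d p := by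
  unfold Sys
  rw [Submodule.mem_inf]
  constructor
  · unfold S11_lin
    rw [Finset.sum_mul_sum]
    refine Submodule.sum_mem _ fun j _ => Submodule.sum_mem _ fun l _ => ?_
    rw [smul_mul_smul_comm]
    exact Submodule.smul_mem _ _ (S11_mon hd j l)
  · rw [Submodule.mem_iInf]
    intro l
    have h0 : eval (p l) (S11_lin 0 u) = 0 := by rw [S11_lin_eval]; exact hu l
    have h1 : eval (p l) (S11_lin 1 v) = 0 := by rw [S11_lin_eval]; exact hv l
    refine ⟨by rw [map_mul, h0, zero_mul], fun w => ?_⟩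
    rw [Derivation.leibniz, map_add, smul_eq_mul, smul_eq_mul, map_mul, map_mul, h0, h1]
    ring

/-- the conditions on the linear forms -/
noncomputable def S11_T {n : Fin 2 → ℕ} (p : Fin 2 → Var n → ℂ) (i : Fin 2) :
    (Fin (n i + 1) → ℂ) →ₗ[ℂ] (Fin 2 → ℂ) :=
  LinearMap.pi fun l => ∑ j, (p l ⟨i, j⟩) • LinearMap.proj j

theorem S11_T_apply {n : Fin 2 → ℕ} (p : Fin 2 → Var n → ℂ) (i : Fin 2) (u : Fin (n i + 1) → ℂ)
    (l : Fin 2) : S11_T p i u l = ∑ j, u j * p l ⟨i, j⟩ := by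
  unfold S11_T
  simp [mul_comm]

theorem S11_ker {n : Fin 2 → ℕ} (p : Fin 2 → Var n → ℂ) (i : Fin 2) :
    n i - 1 ≤ finrank ℂ (LinearMap.ker (S11_T p i)) := by
  have h1 := LinearMap.finrank_range_add_finrank_ker (S11_T p i)
  have h2 : finrank ℂ (LinearMap.range (S11_T p i)) ≤ finrank ℂ (Fin 2 → ℂ) :=
    Submodule.finrank_le _
  rw [Module.finrank_fin_fun] at h1 h2
  omega

theorem S11_low (hMHS : MHS_stmt) (n d : Fin 2 → ℕ) (hd : ∀ i, d i = 1)
    (p : Fin 2 → Var n → ℂ) : (n 0 - 1) * (n 1 - 1) ≤ finrank ℂ (Sys n d p) := by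
  classical
  set U := LinearMap.ker (S11_T p 0) with hU
  set V := LinearMap.ker (S11_T p 1) with hV
  let b := Module.finBasis ℂ U
  let e := Module.finBasis ℂ V
  have hmem : ∀ (s : Fin (finrank ℂ U)) (t : Fin (finrank ℂ V)),
      S11_lin 0 (b s : Fin (n 0 + 1) → ℂ) * S11_lin 1 (e t : Fin (n 1 + 1) → ℂ) ∈ Sys n d p := by
    intro s t
    refine S11_mem hd p _ _ (fun l => ?_) (fun l => ?_)
    · have h : S11_T p 0 (b s : Fin (n 0 + 1) → ℂ) = 0 := LinearMap.mem_ker.1 (b s).2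
      rw [← S11_T_apply, h]
      rfl
    · have h : S11_T p 1 (e t : Fin (n 1 + 1) → ℂ) = 0 := LinearMap.mem_ker.1 (e t).2
      rw [← S11_T_apply, h]
      rfl
  let f : (Fin (finrank ℂ U) × Fin (finrank ℂ V) → ℂ) →ₗ[ℂ] Sys n d p :=
    ∑ st : Fin (finrank ℂ U) × Fin (finrank ℂ V),
      (LinearMap.proj st).smulRight (⟨_, hmem st.1 st.2⟩ : Sys n d p)
  have hf : ∀ c, ((f c : Sys n d p) : MvPolynomial (Var n) ℂ) =
      ∑ st : Fin (finrank ℂ U) × Fin (finrank ℂ V), c st •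
        (S11_lin 0 (b st.1 : Fin (n 0 + 1) → ℂ) * S11_lin 1 (e st.2 : Fin (n 1 + 1) → ℂ)) := by
    intro c
    simp [f, LinearMap.sum_apply]
  have hinj : Function.Injective f := by
    rw [← LinearMap.ker_eq_bot, LinearMap.ker_eq_bot']
    intro c hc
    have h0 : ∀ x : Var n → ℂ, ∑ st : Fin (finrank ℂ U) × Fin (finrank ℂ V), c st *
        ((∑ j, (b st.1 : Fin (n 0 + 1) → ℂ) j * x ⟨0, j⟩) *
          ∑ j, (e st.2 : Fin (n 1 + 1) → ℂ) j * x ⟨1, j⟩) = 0 := by
      intro x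
      have h1 : ((f c : Sys n d p) : MvPolynomial (Var n) ℂ) = 0 := by rw [hc]; rfl
      rw [hf c] at h1
      have h2 := congrArg (eval x) h1
      rw [map_sum, map_zero] at h2
      rw [← h2]
      refine Finset.sum_congr rfl fun st _ => ?_
      rw [smul_eval, map_mul, S11_lin_eval, S11_lin_eval]
    have h3 : ∀ (j : Fin (n 0 + 1)) (l : Fin (n 1 + 1)),
        ∑ s, (∑ t, c (s, t) * (e t : Fin (n 1 + 1) → ℂ) l) * (b s : Fin (n 0 + 1) → ℂ) j = 0 := by
      intro j l
      have h4 := h0 (fun w => if w = ⟨0, j⟩ ∨ w = ⟨1, l⟩ then 1 else 0)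
      have h5 : ∀ s : Fin (finrank ℂ U), (∑ j', (b s : Fin (n 0 + 1) → ℂ) j' *
          (if (⟨0, j'⟩ : Var n) = ⟨0, j⟩ ∨ (⟨0, j'⟩ : Var n) = ⟨1, l⟩ then (1 : ℂ) else 0)) =
            (b s : Fin (n 0 + 1) → ℂ) j := by
        intro s
        rw [Finset.sum_eq_single j]
        · simp
        · intro j' _ hj'
          rw [if_neg, mul_zero]
          rintro (h | h)
          · exact hj' (by simpa using h)
          · simp at h
        · intro h
          exact absurd (Finset.mem_univ j) h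
      have h6 : ∀ t : Fin (finrank ℂ V), (∑ j', (e t : Fin (n 1 + 1) → ℂ) j' *
          (if (⟨1, j'⟩ : Var n) = ⟨0, j⟩ ∨ (⟨1, j'⟩ : Var n) = ⟨1, l⟩ then (1 : ℂ) else 0)) =
            (e t : Fin (n 1 + 1) → ℂ) l := by
        intro t
        rw [Finset.sum_eq_single l]
        · simp
        · intro j' _ hj'
          rw [if_neg, mul_zero]
          rintro (h | h)
          · simp at h
          · exact hj' (by simpa using h)
        · intro h
          exact absurd (Finset.mem_univ l) h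
      simp only [h5, h6] at h4
      rw [Fintype.sum_prod_type] at h4
      rw [← h4]
      refine Finset.sum_congr rfl fun s _ => ?_
      rw [Finset.sum_mul]
      refine Finset.sum_congr rfl fun t _ => ?_
      ring
    have h7 : ∀ (l : Fin (n 1 + 1)) (s : Fin (finrank ℂ U)),
        ∑ t, c (s, t) * (e t : Fin (n 1 + 1) → ℂ) l = 0 := by
      intro l
      have h8 : ∑ s, (∑ t, c (s, t) * (e t : Fin (n 1 + 1) → ℂ) l) • b s = 0 := by
        apply Subtype.ext
        funext j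
        rw [Submodule.coe_sum, Finset.sum_apply]
        exact h3 j l
      exact fun s => (Fintype.linearIndependent_iff.1 b.linearIndependent) _ h8 s
    funext st
    obtain ⟨s, t⟩ := st
    have h9 : ∑ t, c (s, t) • e t = 0 := by
      apply Subtype.ext
      funext l
      rw [Submodule.coe_sum, Finset.sum_apply]
      exact h7 l s
    exact (Fintype.linearIndependent_iff.1 e.linearIndependent) _ h9 t
  have hfin : Module.Finite ℂ ↥(Sys n d p) := by
    have h1 : Sys n d p ≤ Sec (Sigma.fst : Var n → Fin 2) Finset.univ d := by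
      rw [← hMHS 2 n d]
      exact inf_le_left
    exact Module.Finite.of_injective (Submodule.inclusion h1) (Submodule.inclusion_injective h1)
  have h10 := LinearMap.finrank_le_finrank_of_injective hinj
  rw [Module.finrank_fintype_fun_eq_card, Fintype.card_prod, Fintype.card_fin,
    Fintype.card_fin] at h10
  exact (Nat.mul_le_mul (S11_ker p 0) (S11_ker p 1)).trans h10

theorem S11 (hMHS : MHS_stmt) (hDIM : DIM_stmt) : S11_stmt := by
  classical
  intro n d hn hd
  have hdim := Z0_dim hDIM hMHS 2 n d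
  refine ⟨2, by norm_num, ?_⟩
  rintro ⟨F, hF, hG⟩
  have hprod : F * ∏ v : Fin 2 × Var n, X v ≠ 0 := by
    refine mul_ne_zero hF ?_
    rw [Finset.prod_ne_zero_iff]
    intro v _
    exact X_ne_zero v
  obtain ⟨y, hy⟩ : ∃ y : Fin 2 × Var n → ℂ, eval y (F * ∏ v : Fin 2 × Var n, X v) ≠ 0 := by
    by_contra hcon
    push Not at hcon
    apply hprod
    refine MvPolynomial.funext fun x => ?_
    rw [hcon x, map_zero]
  rw [map_mul, map_prod] at hy
  have hy1 := left_ne_zero_of_mul hy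
  have hy2 := right_ne_zero_of_mul hy
  rw [Finset.prod_ne_zero_iff] at hy2
  have hI := hG (fun l v => y (l, v)) (fun l i => ⟨0, by
    have := hy2 (l, ⟨i, 0⟩) (Finset.mem_univ _)
    rwa [eval_X] at this⟩) hy1
  unfold Independent at hI
  have hlow := S11_low hMHS n d hd (fun l v => y (l, v))
  rw [hI, hdim, Fin.prod_univ_two, Fin.sum_univ_two, hd 0, hd 1, Nat.multichoose_one_right,
    Nat.multichoose_one_right] at hlow
  obtain ⟨a, ha⟩ : ∃ a, n 0 = a + 2 := ⟨n 0 - 2, by have := hn 0; omega⟩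
  obtain ⟨b, hb⟩ : ∃ b, n 1 = b + 2 := ⟨n 1 - 2, by have := hn 1; omega⟩
  rw [ha, hb] at hlow
  have h1 : (a + 2 - 1) * (b + 2 - 1) = a * b + a + b + 1 := by
    have e1 : a + 2 - 1 = a + 1 := by omega
    have e2 : b + 2 - 1 = b + 1 := by omega
    rw [e1, e2]
    ring
  have h2 : (a + 2 + 1) * (b + 2 + 1) = a * b + 3 * a + 3 * b + 9 := by ring
  rw [h1, h2] at hlow
  omega

end Pool.Agent.SG
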